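import Mathlib

set_option autoImplicit false

open scoped Polynomial

namespace H13V3

open Polynomial in
private theorem a1_core (R A : Type) [CommRing R] [IsDomain R] [IsIntegrallyClosed R] [CharZero R]
    [CommRing A] [IsDomain A] [Algebra R A] [Algebra.FiniteType R A] [Algebra.IsAlgebraic R A]
    [FaithfulSMul R A] :
    ∃ (ω : A) (P : R[X]), P.Monic ∧ Irreducible P ∧ (∀ p : R[X], aeval ω p = 0 ↔ P ∣ p) ∧
      ∀ a : A, ∃ (r₀ : R) (q : R[X]), r₀ ≠ 0 ∧ algebraMap R A r₀ * a = aeval ω q := by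
  let K := FractionRing R
  let L := FractionRing A
  letI : Algebra K L := FractionRing.liftAlgebra R L
  haveI : IsScalarTower R K L := FractionRing.isScalarTower_liftAlgebra R L
  have hinj : Function.Injective (algebraMap R A) := FaithfulSMul.algebraMap_injective R A
  have hinjL : Function.Injective (algebraMap A L) := IsFractionRing.injective A L
  haveI hloc : IsLocalization (Algebra.algebraMapSubmonoid A (nonZeroDivisors R)) L := inferInstance
  haveI hessA : Algebra.EssFiniteType A L :=
    Algebra.EssFiniteType.of_isLocalization L (nonZeroDivisors A)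
  haveI hessR : Algebra.EssFiniteType R L := Algebra.EssFiniteType.comp R A L
  haveI hessK : Algebra.EssFiniteType K L := Algebra.EssFiniteType.of_comp R K L
  haveI halgA : Algebra.IsAlgebraic A L :=
    (IsFractionRing.comap_isAlgebraic_iff (A := A) (K := L) (C := L)).2 inferInstance
  haveI halgR : Algebra.IsAlgebraic R L := Algebra.IsAlgebraic.trans R A L
  haveI halgK : Algebra.IsAlgebraic K L := IsFractionRing.comap_isAlgebraic_iff.1 halgR
  haveI : Module.Finite K L := Algebra.finite_of_essFiniteType_of_isAlgebraic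
  haveI : CharZero K := charZero_of_injective_algebraMap (IsFractionRing.injective R K)
  obtain ⟨ω₀, hω₀⟩ := Field.exists_primitive_element K L
  obtain ⟨⟨ω₁, ⟨_, s₁, hs₁, rfl⟩⟩, hz₁⟩ :=
    IsLocalization.surj (Algebra.algebraMapSubmonoid A (nonZeroDivisors R)) ω₀
  have hs₁0 : s₁ ≠ 0 := nonZeroDivisors.ne_zero hs₁
  change ω₀ * algebraMap A L (algebraMap R A s₁) = algebraMap A L ω₁ at hz₁
  obtain ⟨y, hy0, hint⟩ := (Algebra.IsAlgebraic.isAlgebraic (R := R) ω₁).exists_integral_multiple
  rw [Algebra.smul_def] at hint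
  set ω : A := algebraMap R A y * ω₁ with hω
  set s : R := s₁ * y with hs
  have hs0 : s ≠ 0 := mul_ne_zero hs₁0 hy0
  have hz : ω₀ * algebraMap A L (algebraMap R A s) = algebraMap A L ω := by
    rw [hs, hω, map_mul, map_mul, map_mul, ← hz₁]
    ring
  have hsK : algebraMap R K s ≠ 0 := by
    intro h
    exact hs0 (IsFractionRing.injective R K (by rw [h, map_zero]))
  have hsL : algebraMap A L (algebraMap R A s) = algebraMap K L (algebraMap R K s) := by
    rw [← IsScalarTower.algebraMap_apply R K L, ← IsScalarTower.algebraMap_apply R A L]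
  have htop : IntermediateField.adjoin K {algebraMap A L ω} = ⊤ := by
    rw [eq_top_iff, ← hω₀, IntermediateField.adjoin_simple_le_iff]
    have h1 : ω₀ = algebraMap A L ω * algebraMap K L (algebraMap R K s)⁻¹ := by
      rw [← hz, hsL, mul_assoc, ← map_mul, mul_inv_cancel₀ hsK, map_one, mul_one]
    rw [h1]
    exact mul_mem (IntermediateField.mem_adjoin_simple_self K _)
      (IntermediateField.algebraMap_mem _ _)
  refine ⟨ω, minpoly R ω, minpoly.monic hint, minpoly.irreducible hint,
    fun p => minpoly.isIntegrallyClosed_dvd_iff hint p, ?_⟩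
  intro a
  have ha : algebraMap A L a ∈ (IntermediateField.adjoin K {algebraMap A L ω}).toSubalgebra := by
    rw [htop]
    exact Algebra.mem_top
  rw [IntermediateField.adjoin_simple_toSubalgebra_of_isAlgebraic
    (Algebra.IsAlgebraic.isAlgebraic (R := K) (algebraMap A L ω)),
    Algebra.adjoin_singleton_eq_range_aeval] at ha
  obtain ⟨p, hp⟩ := ha
  obtain ⟨b, hb, hb2⟩ := IsLocalization.integerNormalization_spec (nonZeroDivisors R) p
  refine ⟨b, IsLocalization.integerNormalization (nonZeroDivisors R) p,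
    nonZeroDivisors.ne_zero hb, ?_⟩
  apply hinjL
  have hp' : aeval (algebraMap A L ω) p = algebraMap A L a := hp
  have h2 : aeval (algebraMap A L ω)
      ((IsLocalization.integerNormalization (nonZeroDivisors R) p).map (algebraMap R K)) =
      algebraMap A L (aeval ω (IsLocalization.integerNormalization (nonZeroDivisors R) p)) := by
    rw [aeval_map_algebraMap, aeval_algebraMap_apply]
  rw [← h2, hb2, map_mul, ← IsScalarTower.algebraMap_apply R A L, ← hp',
    ← algebraMap_smul K b p, map_smul, Algebra.smul_def, ← IsScalarTower.algebraMap_apply R K L]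

/-- A primitive element over a given polynomial subring with algebraic quotient. -/
theorem alg_data (A : Type) [CommRing A] [IsDomain A] [Algebra ℂ A] [Algebra.FiniteType ℂ A]
    (d : ℕ) (ν : MvPolynomial (Fin d) ℂ →ₐ[ℂ] A)
    (hζ : IsTranscendenceBasis ℂ fun i => ν (MvPolynomial.X i)) :
    Function.Injective ν ∧ ∃ (ω : A) (P : (MvPolynomial (Fin d) ℂ)[X]),
      P.Monic ∧ Irreducible P ∧
      (∀ p : (MvPolynomial (Fin d) ℂ)[X],
        (p.eval₂ (ν : MvPolynomial (Fin d) ℂ →+* A) ω = 0 ↔ P ∣ p)) ∧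
      (∀ g : A, g ≠ 0 → ∃ (s : MvPolynomial (Fin d) ℂ) (h : A), s ≠ 0 ∧ ν s = g * h) ∧
      ∀ a : A, ∃ (r₀ : MvPolynomial (Fin d) ℂ) (q : (MvPolynomial (Fin d) ℂ)[X]), r₀ ≠ 0 ∧
        ν r₀ * a = q.eval₂ (ν : MvPolynomial (Fin d) ℂ →+* A) ω := by
  have hae : (MvPolynomial.aeval fun i => ν (MvPolynomial.X i) : MvPolynomial (Fin d) ℂ →ₐ[ℂ] A) = ν :=
    MvPolynomial.algHom_ext fun i => by simp
  have hν : Function.Injective ν := by
    have h1 : Function.Injective
        (MvPolynomial.aeval fun i => ν (MvPolynomial.X i) : MvPolynomial (Fin d) ℂ →ₐ[ℂ] A) := hζ.1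
    rw [hae] at h1
    exact h1
  have halg0 := hζ.isAlgebraic
  letI : Algebra (MvPolynomial (Fin d) ℂ) A := (ν : MvPolynomial (Fin d) ℂ →+* A).toAlgebra
  haveI : IsScalarTower ℂ (MvPolynomial (Fin d) ℂ) A := by
    refine IsScalarTower.of_algebraMap_eq fun a => ?_
    exact (ν.commutes a).symm
  haveI : Algebra.FiniteType (MvPolynomial (Fin d) ℂ) A :=
    Algebra.FiniteType.of_restrictScalars_finiteType ℂ (MvPolynomial (Fin d) ℂ) A
  haveI : FaithfulSMul (MvPolynomial (Fin d) ℂ) A :=
    (faithfulSMul_iff_algebraMap_injective _ _).2 hν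
  haveI halg : Algebra.IsAlgebraic (MvPolynomial (Fin d) ℂ) A := by
    refine ⟨fun a => ?_⟩
    obtain ⟨p, hp0, hp⟩ := halg0.isAlgebraic a
    have hrange : ∀ b : Algebra.adjoin ℂ (Set.range fun i => ν (MvPolynomial.X i)),
        ∃ c : MvPolynomial (Fin d) ℂ, ν c = (b : A) := by
      rintro ⟨b, h1⟩
      have h1' := h1
      rw [Algebra.adjoin_range_eq_range_aeval, hae] at h1'
      exact h1'
    choose c hc using hrange
    let e : Algebra.adjoin ℂ (Set.range fun i => ν (MvPolynomial.X i)) →+* MvPolynomial (Fin d) ℂ :=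
      { toFun := c
        map_one' := hν (by rw [hc, map_one]; rfl)
        map_mul' := fun x y => hν (by rw [map_mul, hc, hc, hc]; rfl)
        map_zero' := hν (by rw [hc, map_zero]; rfl)
        map_add' := fun x y => hν (by rw [map_add, hc, hc, hc]; rfl) }
    have he : ∀ b, algebraMap (MvPolynomial (Fin d) ℂ) A (e b) = (b : A) := hc
    have heinj : Function.Injective e := by
      intro x y hxy
      apply Subtype.ext
      rw [← he x, ← he y, hxy]
    refine ⟨p.map e, (Polynomial.map_ne_zero_iff heinj).2 hp0, ?_⟩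
    rw [Polynomial.aeval_def, Polynomial.eval₂_map]
    rw [Polynomial.aeval_def] at hp
    have h2 : (algebraMap (MvPolynomial (Fin d) ℂ) A).comp e =
        algebraMap (Algebra.adjoin ℂ (Set.range fun i => ν (MvPolynomial.X i))) A := RingHom.ext fun b => he b
    rw [h2]
    exact hp
  obtain ⟨ω, P, h1, h2, h3, h4⟩ := a1_core (MvPolynomial (Fin d) ℂ) A
  refine ⟨hν, ω, P, h1, h2, h3, ?_, h4⟩
  intro g hg
  obtain ⟨s, hs, h, hh⟩ := (halg.isAlgebraic g).exists_nonzero_dvd (mem_nonZeroDivisors_of_ne_zero hg)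
  exact ⟨s, h, hs, hh⟩

/-- Every domain of finite type has a finite transcendence basis (Noether normalisation). -/
theorem exists_basis (A : Type) [CommRing A] [IsDomain A] [Algebra ℂ A] [Algebra.FiniteType ℂ A] :
    ∃ (d : ℕ) (ζ : Fin d → A), IsTranscendenceBasis ℂ ζ := by
  obtain ⟨d, ν, hν, hf⟩ := exists_finite_inj_algHom_of_fg ℂ A
  have hae : (MvPolynomial.aeval fun i => ν (MvPolynomial.X i) : MvPolynomial (Fin d) ℂ →ₐ[ℂ] A) = ν :=
    MvPolynomial.algHom_ext fun i => by simp
  refine ⟨d, fun i => ν (MvPolynomial.X i), ?_⟩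
  have hind : AlgebraicIndependent ℂ (fun i => ν (MvPolynomial.X i)) := by
    show Function.Injective (MvPolynomial.aeval fun i => ν (MvPolynomial.X i) : MvPolynomial (Fin d) ℂ →ₐ[ℂ] A)
    rw [hae]
    exact hν
  rw [hind.isTranscendenceBasis_iff_isAlgebraic]
  refine ⟨fun a => ?_⟩
  have h1 : ν.toRingHom.IsIntegral := RingHom.Finite.to_isIntegral hf
  obtain ⟨p, hp, hpa⟩ := h1 a
  have hmem : ∀ c : MvPolynomial (Fin d) ℂ, ν c ∈ Algebra.adjoin ℂ (Set.range fun i => ν (MvPolynomial.X i)) := by
    intro c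
    rw [Algebra.adjoin_range_eq_range_aeval, hae]
    exact ⟨c, rfl⟩
  let e : MvPolynomial (Fin d) ℂ →+* Algebra.adjoin ℂ (Set.range fun i => ν (MvPolynomial.X i)) :=
    (ν : MvPolynomial (Fin d) ℂ →+* A).codRestrict
      (Algebra.adjoin ℂ (Set.range fun i => ν (MvPolynomial.X i))) hmem
  refine IsIntegral.isAlgebraic ⟨p.map e, hp.map e, ?_⟩
  rw [Polynomial.eval₂_map]
  exact hpa

end H13V3
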