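import Pool.Agent.Lib.H13V3.A3
import Pool.Agent.Lib.H13V2.B1
import Pool.Agent.Lib.H13V2.B2
import Pool.Agent.Lib.H13V2.B3
import Pool.Agent.Lib.H13V2.B4
import Pool.Agent.Lib.H13M.C15
import Pool.Agent.Lib.H13W.Final
import Pool.Agent.Lib.H13F2.F3

set_option autoImplicit false

open scoped Polynomial

namespace H13V3

open H13K H13M H13V2

variable {n : ℕ}

private theorem gen_pi {X Y : Type} [TopologicalSpace X] [TopologicalSpace Y] (e : X ≃ₜ Y) {x : X}
    {y : Y} (h : e x = y) : Nonempty (FundamentalGroup X x ≃* FundamentalGroup Y y) := by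
  have h' : e.symm y = x := by rw [← h, e.symm_apply_apply]
  refine ⟨MonoidHom.toMulEquiv
    (FundamentalGroup.mapOfEq (⟨e, e.continuous⟩ : C(X, Y)) (x := x) (y := y) h)
    (FundamentalGroup.mapOfEq (⟨e.symm, e.symm.continuous⟩ : C(Y, X)) (x := y) (y := x) h') ?_ ?_⟩
  · ext p
    rw [MonoidHom.comp_apply, FundamentalGroup.mapOfEq_apply, FundamentalGroup.mapOfEq_apply]
    induction p using Path.Homotopic.Quotient.ind with | mk γ =>
    change Path.Homotopic.Quotient.mk _ = Path.Homotopic.Quotient.mk γ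
    congr 1
    exact Path.ext (funext fun t => e.symm_apply_apply (γ t))
  · ext p
    rw [MonoidHom.comp_apply, FundamentalGroup.mapOfEq_apply, FundamentalGroup.mapOfEq_apply]
    induction p using Path.Homotopic.Quotient.ind with | mk γ =>
    change Path.Homotopic.Quotient.mk _ = Path.Homotopic.Quotient.mk γ
    congr 1
    exact Path.ext (funext fun t => e.apply_symm_apply (γ t))

/-- The answer for a set in normal form. -/
theorem nf_answer (I : Ideal (MvPolynomial (Fin n) ℂ)) (g' : MvPolynomial (Fin n) ℂ) (d : ℕ)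
    (P : (MvPolynomial (Fin d) ℂ)[X]) (r : MvPolynomial (Fin d) ℂ) (h : NF I g' d P r) :
    IsPathConnected (VG I g') ∧
      ∀ x : VG I g', IsQP (FundamentalGroup (VG I g') x) ∧
        ∀ (A B : Type) [Group A] [Group B] [Nontrivial A] [Nontrivial B],
          Nonempty (FundamentalGroup (VG I g') x ≃* Monoid.Coprod A B) →
            (∃ a : ℕ, Nonempty (A ≃* FreeGroup (Fin a))) ∧
              ∃ b : ℕ, Nonempty (B ≃* FreeGroup (Fin b)) := by
  obtain ⟨φ⟩ := homeo_nf I g' d P r h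
  have hpc : IsPathConnected (H13M.CS P r) :=
    H13M.CS_pathConnected P h.monic h.irr r h.ne h.simple
  have hpcs : PathConnectedSpace (H13M.CS P r) := isPathConnected_iff_pathConnectedSpace.1 hpc
  have hpcv : PathConnectedSpace (VG I g') :=
    φ.symm.surjective.pathConnectedSpace φ.symm.continuous
  refine ⟨isPathConnected_iff_pathConnectedSpace.2 hpcv, ?_⟩
  intro x
  obtain ⟨e⟩ := gen_pi φ (x := x) rfl
  refine ⟨H13F2.isQP_congr e.symm (cs_qp P h.monic r h.simple (φ x)), ?_⟩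
  intro A B _ _ _ _ hAB
  obtain ⟨e'⟩ := hAB
  obtain ⟨hc, hf⟩ := cs_cover P h.monic r h.simple
  cases d with
  | zero =>
    exfalso
    have h1 : Subsingleton (H13M.CS P r) := (cs_zero P h.monic h.irr r).coe_sort
    have h2 := pi_subsingleton (φ x)
    obtain ⟨a, ha⟩ := exists_ne (1 : A)
    apply ha
    have h3 : e (e'.symm (Monoid.Coprod.inl a)) = e (e'.symm 1) := Subsingleton.elim _ _
    have h4 := e'.symm.injective (e.injective h3)
    have h5 := congrArg Monoid.Coprod.fst h4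
    simpa using h5
  | succ m =>
    exact (H13W.final_cover r (proj P r) hc (φ x) (hf _) A B (e.symm.trans e')).2

/-- The part of the affine variety of `I` which the polynomial map `ζ` sends into `t ≠ 0`. -/
def Pre {d : ℕ} (I : Ideal (MvPolynomial (Fin n) ℂ)) (ζ : Fin d → MvPolynomial (Fin n) ℂ)
    (t : MvPolynomial (Fin d) ℂ) : Set (Fin n → ℂ) :=
  {x | (∀ f ∈ I, MvPolynomial.eval x f = 0) ∧
    MvPolynomial.eval (fun i => MvPolynomial.eval x (ζ i)) t ≠ 0}

theorem pre_eq {d : ℕ} (I : Ideal (MvPolynomial (Fin n) ℂ)) (ζ : Fin d → MvPolynomial (Fin n) ℂ)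
    (t : MvPolynomial (Fin d) ℂ) : VG I (MvPolynomial.aeval ζ t) = Pre I ζ t := by
  have hval : ∀ (x : Fin n → ℂ), (MvPolynomial.eval x).comp
      (MvPolynomial.aeval ζ : MvPolynomial (Fin d) ℂ →ₐ[ℂ] MvPolynomial (Fin n) ℂ).toRingHom =
      MvPolynomial.eval (fun i => MvPolynomial.eval x (ζ i)) := by
    intro x
    refine MvPolynomial.ringHom_ext (fun a => ?_) fun i => ?_
    · simp
    · simp
  have hval' : ∀ (x : Fin n → ℂ) (p : MvPolynomial (Fin d) ℂ), MvPolynomial.eval x (MvPolynomial.aeval ζ p) =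
      MvPolynomial.eval (fun i => MvPolynomial.eval x (ζ i)) p := fun x p =>
    congrArg (fun F : MvPolynomial (Fin d) ℂ →+* ℂ => F p) (hval x)
  unfold VG Pre
  simp only [hval']

/-- Inverse images of complements of hypersurfaces which contain a discriminant. -/
theorem generic (I : Ideal (MvPolynomial (Fin n) ℂ)) (hI : I.IsPrime) (d : ℕ)
    (ζ : Fin d → MvPolynomial (Fin n) ℂ)
    (hζb : IsTranscendenceBasis ℂ fun i => Ideal.Quotient.mk I (ζ i))
    (g : MvPolynomial (Fin n) ℂ) (hg : g ∉ I) :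
    ∃ r : MvPolynomial (Fin d) ℂ, r ≠ 0 ∧
      (∀ x ∈ Pre I ζ r, MvPolynomial.eval x g ≠ 0) ∧
      ∀ t : MvPolynomial (Fin d) ℂ, t ≠ 0 → r ∣ t → IsPathConnected (Pre I ζ t) ∧
        ∀ x : Pre I ζ t, IsQP (FundamentalGroup (Pre I ζ t) x) ∧
        ∀ (A B : Type) [Group A] [Group B] [Nontrivial A] [Nontrivial B],
          Nonempty (FundamentalGroup (Pre I ζ t) x ≃* Monoid.Coprod A B) →
            (∃ a : ℕ, Nonempty (A ≃* FreeGroup (Fin a))) ∧
              ∃ b : ℕ, Nonempty (B ≃* FreeGroup (Fin b)) := by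
  obtain ⟨P, r, hr, hgr, h⟩ := exists_nf I hI d ζ hζb g hg
  refine ⟨r, hr, ?_, ?_⟩
  · intro x hx hgx
    exact hx.2 (hgr x hx.1 hgx)
  · rintro t ht ⟨u, rfl⟩
    have hu : u ≠ 0 := fun h0 => ht (by rw [h0, mul_zero])
    rw [← pre_eq]
    exact nf_answer I _ d P (r * u) (h u hu)

/-- There is a transcendence basis of polynomials. -/
theorem exists_zeta (I : Ideal (MvPolynomial (Fin n) ℂ)) (hI : I.IsPrime) :
    ∃ (d : ℕ) (ζ : Fin d → MvPolynomial (Fin n) ℂ),
      IsTranscendenceBasis ℂ fun i => Ideal.Quotient.mk I (ζ i) := by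
  obtain ⟨d, ξ, hξ⟩ := exists_basis (MvPolynomial (Fin n) ℂ ⧸ I)
  choose ζ hζ using fun i => Ideal.Quotient.mk_surjective (I := I) (ξ i)
  refine ⟨d, ζ, ?_⟩
  have h1 : (fun i => Ideal.Quotient.mk I (ζ i)) = ξ := funext hζ
  rw [h1]
  exact hξ

end H13V3
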